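import Mathlib

/-!
# A hypergraph on eight points that is not 2-colourable but where Waiter wins

In the Client-Waiter game (Waiter offers two vertices per round, Client takes one of them and Waiter
gets the other; a single leftover vertex goes to Client) Waiter can win on a hypergraph that is not
2-colourable.
-/

namespace Pool.Agent.Results.MP_ca6fba_co.EightPoints

/-- `WaiterWins E U C`: in the Client-Waiter game on the hypergraph with edge set `E`, in the
position where `U` is the set of unclaimed vertices, `C` is the set of vertices claimed by Client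
and Waiter is to move, Waiter has a winning strategy. -/
inductive WaiterWins {V : Type} [DecidableEq V] (E : Finset (Finset V)) :
    Finset V → Finset V → Prop
  /-- All vertices are claimed and Client has not claimed a whole edge. -/
  | finished {C : Finset V} (h : ∀ e ∈ E, ¬ e ⊆ C) : WaiterWins E ∅ C
  /-- Exactly one vertex is left; it goes to Client. -/
  | leftover {C : Finset V} (v : V) (h : ∀ e ∈ E, ¬ e ⊆ insert v C) : WaiterWins E {v} C
  /-- Waiter offers two unclaimed vertices `a ≠ b` and wins whichever of them Client takes. -/
  | offer {U C : Finset V} (a b : V) (ha : a ∈ U) (hb : b ∈ U) (hab : a ≠ b)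
      (h₁ : WaiterWins E (U \ {a, b}) (insert a C))
      (h₂ : WaiterWins E (U \ {a, b}) (insert b C)) : WaiterWins E U C

/-- A hypergraph with edge set `E` is 2-colourable: some `c : V → Bool` has no monochromatic
edge. -/
def TwoColourable {V : Type} (E : Finset (Finset V)) : Prop :=
  ∃ c : V → Bool, ∀ e ∈ E, ¬ ∃ b : Bool, ∀ v ∈ e, c v = b

/-- The sixteen possible final sets of Waiter. -/
def outcomes : Finset (Finset (Fin 8)) :=
  {{0, 1, 2, 6}, {0, 1, 3, 6}, {0, 2, 4, 6}, {0, 3, 4, 6},
    {1, 2, 5, 6}, {2, 3, 5, 6}, {1, 4, 5, 6}, {3, 4, 5, 6},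
    {0, 1, 3, 7}, {1, 2, 3, 7}, {0, 2, 4, 7}, {1, 2, 4, 7},
    {0, 3, 5, 7}, {2, 3, 5, 7}, {0, 4, 5, 7}, {1, 4, 5, 7}}

/-- The hypergraph: all sets of vertices that meet every member of `outcomes`. -/
def H : Finset (Finset (Fin 8)) :=
  Finset.univ.filter (fun e => ∀ W ∈ outcomes, (e ∩ W).Nonempty)

theorem leaf {U C : Finset (Fin 8)} (hU : U = ∅) (h : ∃ W ∈ outcomes, C ∩ W = ∅) :
    WaiterWins H U C := by
  subst hU
  refine WaiterWins.finished ?_
  intro e he hsub
  obtain ⟨W, hW, hd⟩ := h
  have h1 := (Finset.mem_filter.mp he).2 W hW
  obtain ⟨x, hx⟩ := h1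
  rw [Finset.mem_inter] at hx
  have h2 : x ∈ C ∩ W := Finset.mem_inter.mpr ⟨hsub hx.1, hx.2⟩
  rw [hd] at h2
  exact absurd h2 (Finset.notMem_empty x)

theorem outcomes_meet : ∀ W ∈ outcomes, ∀ W' ∈ outcomes, (W ∩ W').Nonempty := by
  decide +kernel

theorem waiter_wins : WaiterWins H Finset.univ ∅ :=
    (WaiterWins.offer 6 7 (by decide) (by decide) (by decide)
      (WaiterWins.offer 3 4 (by decide) (by decide) (by decide)
        (WaiterWins.offer 0 1 (by decide) (by decide) (by decide)
          (WaiterWins.offer 2 5 (by decide) (by decide) (by decide)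
            (leaf (by decide) (by decide))
            (leaf (by decide) (by decide)))
          (WaiterWins.offer 2 5 (by decide) (by decide) (by decide)
            (leaf (by decide) (by decide))
            (leaf (by decide) (by decide))))
        (WaiterWins.offer 0 2 (by decide) (by decide) (by decide)
          (WaiterWins.offer 1 5 (by decide) (by decide) (by decide)
            (leaf (by decide) (by decide))
            (leaf (by decide) (by decide)))
          (WaiterWins.offer 1 5 (by decide) (by decide) (by decide)
            (leaf (by decide) (by decide))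
            (leaf (by decide) (by decide)))))
      (WaiterWins.offer 0 5 (by decide) (by decide) (by decide)
        (WaiterWins.offer 1 3 (by decide) (by decide) (by decide)
          (WaiterWins.offer 2 4 (by decide) (by decide) (by decide)
            (leaf (by decide) (by decide))
            (leaf (by decide) (by decide)))
          (WaiterWins.offer 2 4 (by decide) (by decide) (by decide)
            (leaf (by decide) (by decide))
            (leaf (by decide) (by decide))))
        (WaiterWins.offer 1 4 (by decide) (by decide) (by decide)
          (WaiterWins.offer 2 3 (by decide) (by decide) (by decide)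
            (leaf (by decide) (by decide))
            (leaf (by decide) (by decide)))
          (WaiterWins.offer 2 3 (by decide) (by decide) (by decide)
            (leaf (by decide) (by decide))
            (leaf (by decide) (by decide))))))

theorem not_twoColourable : ¬ TwoColourable H := by
  rintro ⟨c, hc⟩
  have key : ∀ b : Bool, ∃ W ∈ outcomes, ∀ v ∈ W, c v ≠ b := by
    intro b
    by_contra hcon
    push Not at hcon
    have hmem : Finset.univ.filter (fun v => c v = b) ∈ H := by
      refine Finset.mem_filter.mpr ⟨Finset.mem_univ _, ?_⟩
      intro W hW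
      obtain ⟨v, hv, hvb⟩ := hcon W hW
      exact ⟨v, Finset.mem_inter.mpr ⟨Finset.mem_filter.mpr ⟨Finset.mem_univ _, hvb⟩, hv⟩⟩
    exact hc _ hmem ⟨b, fun v hv => (Finset.mem_filter.mp hv).2⟩
  obtain ⟨W, hW, h1⟩ := key true
  obtain ⟨W', hW', h2⟩ := key false
  obtain ⟨x, hx⟩ := outcomes_meet W hW W' hW'
  rw [Finset.mem_inter] at hx
  have h3 := h1 x hx.1
  have h4 := h2 x hx.2
  revert h3 h4
  cases c x <;> simp

/-- **Theorem.** There is a hypergraph on eight vertices that is not 2-colourable although Waiter
wins the Client-Waiter game on it. -/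
theorem result : ∃ E : Finset (Finset (Fin 8)), WaiterWins E Finset.univ ∅ ∧ ¬ TwoColourable E :=
  ⟨H, waiter_wins, not_twoColourable⟩

end Pool.Agent.Results.MP_ca6fba_co.EightPoints
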